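import Pool.Agent.H74.GKKEx
import Pool.Agent.H74.GKKStab4

set_option autoImplicit false

namespace Pool.Agent.Results.MP_f9eabf_al.LargestOrder

open Pool.Agent.H74.GKK

/-- The largest `N` such that every GKK τ-matrix of order at most `N` is stable is `N = 4`. -/
theorem result :
    IsGreatest {N : ℕ | ∀ n ≤ N, ∀ A : Matrix (Fin n) (Fin n) ℂ, IsGKK A → IsTau A → IsStable A} 4 := by
  refine ⟨fun n hn A h _ => stable_le4 n hn A h, fun N hN => ?_⟩
  by_contra h
  exact M5_unstable (hN 5 (by omega) _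
    ⟨M5_P, fun k α β hα hβ hk => ⟨(M5_strict k α β hα hβ hk).1, (M5_strict k α β hα hβ hk).2.le⟩⟩
    M5_tau)

end Pool.Agent.Results.MP_f9eabf_al.LargestOrder
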